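import Pool.Agent.H743.JL.StmC
import Pool.Agent.H743.X17.SYSB

/-!
# JL DT (helper743): the relations between the data
-/

set_option autoImplicit false
set_option linter.all false

open scoped Classical

namespace Pool.Agent.H183.JL.DT

open Finset
open Pool.Agent.H743.JL
open Pool.Agent.H743.X17 (Sys Rt RS LL lS al nu pd lam)
open Pool.Agent.H743.X17.QSYSB

lemma wt_eq (m : ℤ) (p : ℕ) : wt m p = w m p := rfl

lemma sum_RS {m : ℤ} {V : Type} [Fintype V] [DecidableEq V] {π : V → ℕ}
    (hinj : Function.Injective π) (hmem : ∀ x, x ∈ RS m ↔ ∃ v, π v = x) (f : ℕ → ZMod 2) :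
    ∑ v, f (π v) = ∑ p ∈ RS m, f p := by
  have e : RS m = univ.image π := by
    ext x
    rw [hmem, mem_image]
    constructor
    · rintro ⟨v, hv⟩
      exact ⟨v, mem_univ _, hv⟩
    · rintro ⟨v, -, hv⟩
      exact ⟨v, hv⟩
  rw [e, sum_image fun a _ b _ h => hinj h]

/-- the symbol at 17 of a prime discriminant -/
lemma aj17_vq {m : ℤ} {p : ℕ} (hp : p.Prime) (hne : p ≠ 17) : aj 17 (vq m p) = nu p := by
  have h1 : aj 17 (-1) = 0 := by
    rw [aj_neg_one p17 (by norm_num)]
    decide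
  have h2 : aj 17 2 = 0 := by
    have := aj_two p17 (by norm_num)
    rw [this]
    decide
  by_cases hp2 : p = 2
  · subst hp2
    rw [nu_two]
    unfold vq
    rw [if_pos rfl]
    split_ifs
    · exact h1
    · exact h2
    · have h' : ¬ ((17 : ℕ) : ℤ) ∣ 2 := by norm_num
      rw [show (-2 : ℤ) = -1 * 2 by ring, aj_mul p17 (nd_neg (nd_one p17)) h', h1, h2, add_zero]
  · have ho : p % 2 = 1 := Nat.odd_iff.1 (odd_of_prime hp hp2)
    rw [vq_odd hp2, aj_mul p17 (nd_ep p17 p) (nd_prime p17 hp (Ne.symm hne)),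
      aj_ep p17 (by norm_num) ho, aj17 hp hne]
    have h3 : f4 ((17 : ℕ) : ℤ) = 0 := by decide
    rw [h3, zero_mul, zero_add]

lemma sum_nu {m : ℤ} (hm : Squarefree m) (hR : Rt m) (h17 : 17 ∉ RS m) :
    ∑ p ∈ RS m, nu p = if m < 0 then 1 else 0 := by
  have h1 : ∑ p ∈ RS m, nu p = ∑ p ∈ RS m, aj 17 (vq m p) := by
    refine sum_congr rfl fun p hp => ?_
    exact (aj17_vq ((mem_RS hm).1 hp).1 (fun h => h17 (h ▸ hp))).symm
  have h2 : aj 17 (∏ p ∈ RS m, vq m p) = ∑ p ∈ RS m, aj 17 (vq m p) := by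
    refine aj_prod p17 _ _ fun q hq => ?_
    exact nd_vq p17 (by norm_num) ((mem_RS hm).1 hq).1 (fun h => h17 (h ▸ hq))
  rw [h1, ← h2, prod_vq hm]
  unfold aj
  rcases hR with ⟨h3, h4⟩ | ⟨h3, h4⟩
  · have h4' : jacobiSym m 17 = 1 := h4
    rw [if_pos h4', if_neg (not_lt.2 h3.le)]
  · rw [if_neg h4, if_pos h3]

lemma sum_al {m : ℤ} (hm : Squarefree m) :
    ∑ p ∈ RS m, al m p = if m < 0 then 1 else 0 := by
  have h1 := sign_prod (RS m) (vq m) fun q hq => vq_ne ((mem_RS hm).1 hq).1
  rw [prod_vq hm] at h1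
  rw [h1]
  exact sum_congr rfl fun q _ => vq_neg_iff.symm

lemma neg_of_17 {m : ℤ} (hm : Squarefree m) (hR : Rt m) (h17 : 17 ∈ RS m) : m < 0 := by
  rcases hR with ⟨h3, h4⟩ | ⟨h3, h4⟩
  · exfalso
    have hd : (17 : ℤ) ∣ m := by
      rcases ((mem_RS hm).1 h17).2 with h | h
      · exact_mod_cast h
      · exact absurd h.1 (by norm_num)
    have h5 : jacobiSym m 17 = 0 := by
      rw [jacobiSym.mod_left, Int.emod_eq_zero_of_dvd (by exact_mod_cast hd)]
      exact jacobiSym.zero_left (by norm_num)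
    rw [h5] at h4
    exact absurd h4 (by decide)
  · exact h3

theorem t_DT : S_DT := by
  intro m V _ _ π hm hR hinj hmem
  have hV : ∀ v, π v ∈ RS m := fun v => (hmem _).2 ⟨v, rfl⟩
  have hP : ∀ v, (π v).Prime := fun v => ((mem_RS hm).1 (hV v)).1
  refine ⟨?_, ?_, ?_, ?_, ?_, ?_⟩
  · intro i
    have h := sum_RS hinj hmem (fun q => LL m (π i) q)
    exact h.trans (row_zero (hV i))
  · intro i j hij
    have hne : π i ≠ π j := fun h => hij (hinj h)
    have h := rel hm (hV i) (hV j) hne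
    show wt m (π i) * LL m (π i) (π j) + wt m (π j) * LL m (π j) (π i) = al m (π i) * al m (π j)
    rw [LL_off hne, LL_off (Ne.symm hne)]
    exact h
  · exact (sum_RS hinj hmem (fun q => al m q)).trans (sum_al hm)
  · intro i
    show nu (π i) * wt m (π i) = nu (π i)
    by_cases h2 : π i = 2
    · rw [h2, nu_two, zero_mul]
    · have : wt m (π i) = 1 := w_odd h2
      rw [this, mul_one]
  · intro hr
    have h17 : 17 ∉ RS m := by
      intro h
      obtain ⟨v, hv⟩ := (hmem 17).1 h
      have h1 := hr v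
      unfold rA at h1
      rw [if_pos hv] at h1
      exact absurd h1 (by decide)
    exact (sum_RS hinj hmem (fun q => nu q)).trans (sum_nu hm hR h17)
  · intro i hi
    have h17 : π i = 17 := by
      by_contra h
      unfold rA at hi
      rw [if_neg h] at hi
      exact absurd hi (by decide)
    have hm17 : 17 ∈ RS m := h17 ▸ hV i
    refine ⟨if_pos (neg_of_17 hm hR hm17), ?_, ?_, ?_⟩
    · show al m (π i) = 0
      rw [h17, al_odd p17 (by norm_num)]
      decide
    · show wt m (π i) = 1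
      exact w_odd (by rw [h17]; norm_num)
    · intro j hj
      have hne : π j ≠ 17 := fun h => hj (hinj (h.trans h17.symm))
      constructor
      · show LL m (π j) (π i) = nu (π j)
        rw [h17, LL_off hne, lS_nu (hP j) hne]
      · show (if π j = 17 then (1 : ZMod 2) else 0) = 0
        rw [if_neg hne]

end Pool.Agent.H183.JL.DT
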